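import Pool.Agent.H12.KP.Targets4

/-!
# AHN: the completion is noetherian (helper68, board kpi_modules)
-/

namespace Pool.Agent.H68.KP

open Pool.Agent.H12.KP Polynomial TensorProduct

universe u v

lemma compl_isUnit {R : Type u} [CommRing R] (p y : R) (hsep : ∀ x : R, (∀ k, p ^ k ∣ x) → x = 0)
    (hc : SeqCompl p) : IsUnit (1 + p * y) := by
  obtain ⟨x, hx⟩ := hc (fun k => ∑ i ∈ Finset.range k, (-(p * y)) ^ i) (fun k => by
    rw [Finset.sum_range_succ, add_sub_cancel_left]
    refine ⟨(-y) ^ k, ?_⟩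
    rw [← mul_pow]
    congr 1
    ring)
  have h1 : (1 + p * y) * x - 1 = 0 := by
    refine hsep _ fun k => ?_
    have h2 : (1 + p * y) * x - 1 =
        (1 + p * y) * (x - ∑ i ∈ Finset.range k, (-(p * y)) ^ i) - (-(p * y)) ^ k := by
      have h3 := mul_neg_geom_sum (-(p * y)) k
      have h4 : (1 + p * y) * (∑ i ∈ Finset.range k, (-(p * y)) ^ i) = 1 - (-(p * y)) ^ k := by
        rw [← h3]
        ring
      rw [mul_sub, h4]
      ring
    rw [h2]
    refine dvd_sub (Dvd.dvd.mul_left (hx k) _) ?_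
    refine ⟨(-y) ^ k, ?_⟩
    rw [← mul_pow]
    congr 1
    ring
  exact IsUnit.of_mul_eq_one x (sub_eq_zero.1 h1)

theorem pf_AHN : S_AHN.{u} := by
  intro A Ah _ _ _ _ _ π hπ hC
  have hdom : IsDomain Ah := hC.domain
  set p : Ah := algebraMap A Ah π with hp
  have hp0 : p ≠ 0 := by
    intro h0
    have h1 : p ^ 2 ∣ algebraMap A Ah π := by
      rw [← hp, h0]
      exact dvd_zero _
    obtain ⟨c, hc⟩ := hC.pure π 2 h1
    have h2 : π * (π * c) = π * 1 := by
      rw [mul_one, ← mul_assoc, ← pow_two, ← hc]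
    have h3 := mul_left_cancel₀ hπ.ne_zero h2
    exact hπ.not_isUnit (IsUnit.of_mul_eq_one c h3)
  have hpu : ¬ IsUnit p := by
    intro h
    have h1 : p ^ 1 ∣ algebraMap A Ah 1 := by
      rw [pow_one]
      exact h.dvd
    have h2 := hC.pure 1 1 h1
    rw [pow_one] at h2
    exact hπ.not_isUnit (isUnit_of_dvd_one h2)
  have hfac : ∀ x : Ah, x ≠ 0 → ∃ n : ℕ, ∃ w : Ah, IsUnit w ∧ x = p ^ n * w := by
    intro x hx
    have h1 : ∃ k, ¬ p ^ k ∣ x := by
      by_contra hcon
      push Not at hcon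
      exact hx (hC.sep x hcon)
    classical
    have h2 := Nat.find_spec h1
    have h3 : Nat.find h1 ≠ 0 := by
      intro h0
      rw [h0, pow_zero] at h2
      exact h2 (one_dvd x)
    obtain ⟨n, hn⟩ := Nat.exists_eq_succ_of_ne_zero h3
    have h4 : p ^ n ∣ x := by
      have := Nat.find_min h1 (m := n) (by omega)
      exact not_not.1 this
    obtain ⟨x', hx'⟩ := h4
    have h5 : ¬ p ∣ x' := by
      rintro ⟨z, hz⟩
      apply h2
      rw [hn, hx', hz]
      exact ⟨z, by rw [Nat.succ_eq_add_one, pow_succ]; ring⟩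
    refine ⟨n, x', ?_, hx'⟩
    obtain ⟨a, z, hz⟩ := hC.dense x' 1
    rw [pow_one] at hz
    have h6 : ¬ π ∣ a := by
      rintro ⟨c, hc⟩
      apply h5
      refine ⟨z + algebraMap A Ah c, ?_⟩
      have h7 : algebraMap A Ah a = p * algebraMap A Ah c := by
        rw [hc, map_mul]
      rw [h7] at hz
      linear_combination hz
    have h8 : IsUnit a := by
      have ha0 : a ≠ 0 := fun h => h6 (h ▸ dvd_zero π)
      obtain ⟨m, w, hw⟩ := IsDiscreteValuationRing.eq_unit_mul_pow_irreducible ha0 hπ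
      cases m with
      | zero => rw [hw, pow_zero, mul_one]; exact w.isUnit
      | succ m => exact absurd ⟨(w : A) * π ^ m, by rw [hw, pow_succ]; ring⟩ h6
    have h9 : IsUnit (algebraMap A Ah a) := h8.map _
    obtain ⟨b, hb⟩ := h9.exists_right_inv
    have h10 : x' = algebraMap A Ah a * (1 + p * (b * z)) := by
      linear_combination hz - p * z * hb
    rw [h10]
    exact h9.mul (compl_isUnit p (b * z) hC.sep hC.compl)
  have hirr : Irreducible p := by
    refine ⟨hpu, ?_⟩
    intro a b hab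
    by_contra hcon
    push Not at hcon
    obtain ⟨ha, hb⟩ := hcon
    have ha0 : a ≠ 0 := by
      rintro rfl
      rw [zero_mul] at hab
      exact hp0 hab
    have hb0 : b ≠ 0 := by
      rintro rfl
      rw [mul_zero] at hab
      exact hp0 hab
    obtain ⟨i, w, hw, hiw⟩ := hfac a ha0
    obtain ⟨j, w', hw', hjw⟩ := hfac b hb0
    have hi : i ≠ 0 := by
      rintro rfl
      rw [pow_zero, one_mul] at hiw
      exact ha (hiw ▸ hw)
    have hj : j ≠ 0 := by
      rintro rfl
      rw [pow_zero, one_mul] at hjw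
      exact hb (hjw ▸ hw')
    obtain ⟨i', rfl⟩ := Nat.exists_eq_succ_of_ne_zero hi
    obtain ⟨j', rfl⟩ := Nat.exists_eq_succ_of_ne_zero hj
    have h1 : p * 1 = p * (p * (p ^ i' * p ^ j' * w * w')) := by
      rw [mul_one]
      calc p = a * b := hab
        _ = p * (p * (p ^ i' * p ^ j' * w * w')) := by
          rw [hiw, hjw, Nat.succ_eq_add_one, Nat.succ_eq_add_one, pow_succ, pow_succ]
          ring
    have h2 := mul_left_cancel₀ hp0 h1
    exact hpu (IsUnit.of_mul_eq_one _ h2.symm)
  have hdvr : IsDiscreteValuationRing Ah := by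
    refine IsDiscreteValuationRing.ofHasUnitMulPowIrreducibleFactorization ⟨p, hirr, ?_⟩
    intro x hx
    obtain ⟨n, w, ⟨w', hw'⟩, hxw⟩ := hfac x hx
    exact ⟨n, w', by rw [hxw, hw']⟩
  have hnoeth : IsNoetherianRing Ah := inferInstance
  have hinj : ∀ a : A, algebraMap A Ah a = 0 → a = 0 := by
    intro a ha
    by_contra ha0
    obtain ⟨m, w, hw⟩ := IsDiscreteValuationRing.eq_unit_mul_pow_irreducible ha0 hπ
    rw [hw, map_mul, map_pow, ← hp] at ha
    rcases mul_eq_zero.1 ha with h | h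
    · exact (w.isUnit.map (algebraMap A Ah)).ne_zero h
    · exact pow_ne_zero m hp0 h
  have htf : Module.IsTorsionFree A Ah := by
    have : FaithfulSMul A Ah := by
      rw [faithfulSMul_iff_algebraMap_injective]
      exact (injective_iff_map_eq_zero _).2 hinj
    infer_instance
  refine ⟨hnoeth, inferInstance, ?_⟩
  intro B _ _ hB
  have : Algebra.FiniteType Ah (Ah ⊗[A] B) := inferInstance
  exact Algebra.FiniteType.isNoetherianRing Ah (Ah ⊗[A] B)

end Pool.Agent.H68.KP
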